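import Pool.Agent.Lib_MP_752436_hg.Induct
import Pool.Agent.Lib_MP_752436_mv.Crit

/-!
PIECE INDUCTB: stretching of all critical points which are not births. Same proof as
exists_stretched_order (hg/Induct.lean), only the critical points with a direction u,
D^2 t(u, u) < 0, are stretched; a critical point of the Morse function t = height F in the open disc
without such a direction is a local minimum (crit_localMin in mv/Crit), that is, a point of births F.
-/

open Metric Set Filter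
open scoped ContDiff Topology

namespace Pool.Agent.Lib_MP_752436_hk

open Pool.Agent.Lib_MP_752436_gt Pool.Agent.Lib_MP_752436_tp Pool.Agent.Lib_MP_752436_rb
  Pool.Agent.Lib_MP_752436_nb Pool.Agent.Lib_MP_752436_hg

theorem exists_stretched_births {F : Plane → EuclideanSpace ℝ (Fin 4)} (hF : MorseDisc F)
    (hfin : {x | x ∈ closedBall (0 : Plane) 1 ∧ fderiv ℝ (height F) x = 0}.Finite)
    {f : Plane → Space} (h : SDisc f (height F))
    (him : ∀ x ∈ closedBall (0 : Plane) 1, Function.Injective (fderiv ℝ f x)) :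
    ∃ t' : Plane → ℝ, SDisc f t' ∧ (∀ x ∈ sphere (0 : Plane) 1, fderiv ℝ t' x ≠ 0) ∧
      (∀ x ∈ closedBall (0 : Plane) 1, fderiv ℝ t' x = 0 → nF f t' x < 0 ∨ x ∈ births F) ∧
      ∀ x ∈ closedBall (0 : Plane) 1, ∀ y ∈ closedBall (0 : Plane) 1, f x = f y →
        height F x < height F y → t' x < t' y := by
  classical
  obtain ⟨c, hc, hgap⟩ := double_gap h him
  have hneat : ∀ x ∈ sphere (0 : Plane) 1, fderiv ℝ (height F) x ≠ 0 := by
    intro x hx h0
    obtain ⟨u, hu⟩ := hF.neat x hx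
    apply hu
    show fderiv ℝ (height F) x u = 0
    rw [h0]
    rfl
  set t : Plane → ℝ := height F with ht
  set C : Set Plane := {x | x ∈ closedBall (0 : Plane) 1 ∧ fderiv ℝ t x = 0} with hC
  set C' : Set Plane := {x | x ∈ C ∧ ∃ u, fderiv ℝ (fderiv ℝ t) x u u < 0} with hC'
  have hfin' : C'.Finite := hfin.subset fun x hx => hx.1
  obtain ⟨U, hU, hdisj⟩ := hfin.t2_separation
  have hCb : ∀ p ∈ C, p ∈ ball (0 : Plane) 1 := by
    intro p hp
    rcases (mem_closedBall.1 hp.1).lt_or_eq with h1 | h1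
    · exact mem_ball.2 h1
    · exact absurd hp.2 (hneat p (mem_sphere.2 h1))
  set W : Plane → Set Plane := fun p => U p ∩ ball (0 : Plane) 1 with hW
  have hWopen : ∀ p, IsOpen (W p) := fun p => (hU p).2.inter isOpen_ball
  have hWd : ∀ p ∈ C, ∀ q ∈ C, ∀ x, x ∈ W p → x ∈ W q → p = q := by
    intro p hp q hq x hxp hxq
    by_contra hne
    exact (Set.disjoint_left.mp (hdisj hp hq hne)) hxp.1 hxq.1
  have hex : ∀ p, ∃ t' : Plane → ℝ, p ∈ C' → (ContDiff ℝ ∞ t' ∧ (∀ x ∉ W p, t' =ᶠ[𝓝 x] t) ∧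
      (∀ x, |t' x - t x| ≤ c / 3) ∧ (∀ x ∈ W p, ∃ y ∈ W p, t' x = t y) ∧
      (∀ x ∈ W p, fderiv ℝ t' x = 0 → x = p) ∧ fderiv ℝ t' p = 0 ∧ nF f t' p < 0) := by
    intro p
    by_cases hp : p ∈ C'
    · obtain ⟨t', ht'⟩ := exists_stretch (f := f) h.smt (him p hp.1.1) hp.1.2
        hp.2 (hWopen p) ⟨(hU p).1, hCb p hp.1⟩
        (fun x hx hx0 => by
          have hxC : x ∈ C := ⟨ball_subset_closedBall hx.2, hx0⟩
          exact hWd x hxC p hp.1 x ⟨(hU x).1, hx.2⟩ hx) (η := c / 3) (by positivity)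
      exact ⟨t', fun _ => ht'⟩
    · exact ⟨t, fun hp' => absurd hp' hp⟩
  choose s hs using hex
  set S : Finset Plane := hfin'.toFinset with hS
  have hSC : ∀ p, p ∈ S ↔ p ∈ C' := fun p => hfin'.mem_toFinset
  set T : Plane → ℝ := fun x => t x + ∑ p ∈ S, (s p x - t x) with hT
  -- near a point of `W p`
  have near1 : ∀ p ∈ C', ∀ x ∈ W p, T =ᶠ[𝓝 x] s p := by
    intro p hp x hx
    filter_upwards [(hWopen p).mem_nhds hx] with y hy
    have h1 : ∑ q ∈ S, (s q y - t y) = s p y - t y := by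
      rw [Finset.sum_eq_single p]
      · intro q hq hqp
        have hqC := (hSC q).mp hq
        have hyq : y ∉ W q := fun hyq => hqp (hWd q hqC.1 p hp.1 y hyq hy)
        rw [((hs q hqC).2.1 y hyq).eq_of_nhds, sub_self]
      · intro hpS
        exact absurd ((hSC p).mpr hp) hpS
    simp only [hT, h1]
    ring
  have near2 : ∀ x, (∀ p ∈ C', x ∉ W p) → T =ᶠ[𝓝 x] t := by
    intro x hx
    have h1 : ∀ᶠ y in 𝓝 x, ∀ p ∈ S, s p y = t y := by
      rw [Finset.eventually_all]
      intro p hp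
      exact (hs p ((hSC p).mp hp)).2.1 x (hx p ((hSC p).mp hp))
    filter_upwards [h1] with y hy
    have h2 : ∑ q ∈ S, (s q y - t y) = 0 :=
      Finset.sum_eq_zero fun q hq => by rw [hy q hq, sub_self]
    simp only [hT, h2, add_zero]
  have hTs : ContDiff ℝ ∞ T := by
    apply h.smt.add
    apply ContDiff.sum
    intro p hp
    exact (hs p ((hSC p).mp hp)).1.sub h.smt
  have hclose : ∀ x, |T x - t x| ≤ c / 3 := by
    intro x
    by_cases hx : ∃ p ∈ C', x ∈ W p
    · obtain ⟨p, hp, hxp⟩ := hx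
      rw [(near1 p hp x hxp).eq_of_nhds]
      exact (hs p hp).2.2.1 x
    · push Not at hx
      rw [(near2 x hx).eq_of_nhds, sub_self, abs_zero]
      positivity
  refine ⟨T, ⟨h.smf, hTs, ?_, ?_, ?_, ?_⟩, ?_, ?_, ?_⟩
  · intro x hx y hy hf ht
    by_contra hne
    have h1 := hgap x hx y hy hne hf
    have h2 := hclose x
    have h3 := hclose y
    rw [abs_le] at h2 h3
    rcases le_abs'.mp h1 with h4 | h4
    · linarith [h2.1, h2.2, h3.1, h3.2]
    · linarith [h2.1, h2.2, h3.1, h3.2]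
  · intro x hx u hu _
    apply him x hx
    rw [hu, map_zero]
  · intro x hx
    have h1 : ∀ p ∈ C', x ∉ W p := fun p _ hxp => by
      have h2 := mem_ball.mp hxp.2
      rw [mem_sphere.mp hx] at h2
      exact lt_irrefl _ h2
    rw [(near2 x h1).eq_of_nhds]
    exact h.bd x hx
  · intro x hx
    by_cases hxx : ∃ p ∈ C', x ∈ W p
    · obtain ⟨p, hp, hxp⟩ := hxx
      rw [(near1 p hp x hxp).eq_of_nhds]
      obtain ⟨y, hy, hxy⟩ := (hs p hp).2.2.2.1 x hxp
      rw [hxy]
      exact h.pos y hy.2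
    · push Not at hxx
      rw [(near2 x hxx).eq_of_nhds]
      exact h.pos x hx
  · intro x hx
    have h1 : ∀ p ∈ C', x ∉ W p := fun p _ hxp => by
      have h2 := mem_ball.mp hxp.2
      rw [mem_sphere.mp hx] at h2
      exact lt_irrefl _ h2
    rw [(near2 x h1).fderiv_eq]
    exact hneat x hx
  · intro x hx hx0
    by_cases hxx : ∃ p ∈ C', x ∈ W p
    · obtain ⟨p, hp, hxp⟩ := hxx
      rw [(near1 p hp x hxp).fderiv_eq] at hx0
      have hxp' : x = p := (hs p hp).2.2.2.2.1 x hxp hx0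
      left
      rw [nF_congr (near1 p hp x hxp), hxp']
      exact (hs p hp).2.2.2.2.2.2
    · push Not at hxx
      rw [(near2 x hxx).fderiv_eq] at hx0
      have hxC : x ∈ C := ⟨hx, hx0⟩
      right
      have hxb : x ∈ ball (0 : Plane) 1 := hCb x hxC
      refine ⟨hxb, ?_⟩
      refine Pool.Agent.Lib_MP_752436_mv.crit_localMin h.smt hx0 (Pool.Agent.Lib_MP_752436_mv.crit_nondeg hF hxb hx0) fun u => ?_
      by_contra hneg
      exact hxx x ⟨hxC, u, not_le.1 hneg⟩ ⟨(hU x).1, hxb⟩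
  · intro x hx y hy hf ht
    have hne : x ≠ y := fun h0 => by rw [h0] at ht; exact lt_irrefl _ ht
    have h1 := hgap x hx y hy hne hf
    have h2 := hclose x
    have h3 := hclose y
    rw [abs_le] at h2 h3
    rw [abs_of_neg (sub_neg.2 ht)] at h1
    linarith [h2.1, h2.2, h3.1, h3.2]

theorem finite_births {F : Plane → EuclideanSpace ℝ (Fin 4)} (_hF : MorseDisc F)
    (hfin : {x | x ∈ closedBall (0 : Plane) 1 ∧ fderiv ℝ (height F) x = 0}.Finite) :
    (births F).Finite :=
  hfin.subset fun _ hx => ⟨ball_subset_closedBall hx.1, hx.2.fderiv_eq_zero⟩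

end Pool.Agent.Lib_MP_752436_hk
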