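import Pool.Agent.Lib_MP_752436_nb.RibbonIff
import Pool.Agent.Lib_MP_752436_nb.Transport

/-!
Isotopies of slice discs relative to the boundary curve.
-/

open Metric Set Filter
open scoped ContDiff Topology

namespace Pool.Agent.Lib_MP_752436_hk

open Pool.Agent.Lib_MP_752436_gt Pool.Agent.Lib_MP_752436_tp Pool.Agent.Lib_MP_752436_rb
  Pool.Agent.Lib_MP_752436_nb

/-- `F` and `G` are isotopic slice discs: they are the ends of a smooth path of slice discs with the
same boundary curve. -/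
def DiscIsotopic (F G : EuclideanSpace ℝ (Fin 2) → EuclideanSpace ℝ (Fin 4)) : Prop :=
  ∃ H : ℝ → EuclideanSpace ℝ (Fin 2) → EuclideanSpace ℝ (Fin 4),
    ContDiff ℝ ∞ (fun p : ℝ × EuclideanSpace ℝ (Fin 2) => H p.1 p.2) ∧ H 0 = F ∧ H 1 = G ∧
      ∀ s ∈ Icc (0 : ℝ) 1, IsSliceDisc (H s) ∧
        ∀ x ∈ sphere (0 : EuclideanSpace ℝ (Fin 2)) 1, H s x = F x

end Pool.Agent.Lib_MP_752436_hk
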