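import Pool.Agent.Lib_MP_752436_hi.Iso
import Pool.Agent.Lib_MP_752436_hk.Defs

/-!
PIECE PATH: the path version of exists_straight (hi/Iso.lean).

Flow of the compactly supported field (0, rho(s) chi(τ, y), rho(s) s V(τ, y)) on R x R x R^3, rho a bump
function which is 1 on [-1, 1]; for fixed s in [0, 1] it is the flow of (chi, s V). g s x = the last
component of the flow at time -(t x) of (s, t x, f x). SDisc (g s) t for all s in [0, 1] as in
exists_straight (the proof of this part does not use hVi), at s = 1 g 1 is an immersion by hVi.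
-/

open Metric Set Filter
open scoped ContDiff Topology

namespace Pool.Agent.Lib_MP_752436_hk

open Pool.Agent.Lib_MP_752436_gt Pool.Agent.Lib_MP_752436_tp Pool.Agent.Lib_MP_752436_rb
  Pool.Agent.Lib_MP_752436_nb Pool.Agent.Lib_MP_752436_hi

theorem exists_straight_path {f : Plane → Space} {t : Plane → ℝ} (h : SDisc f t)
    {V : ℝ × Space → Space} (hV : ContDiff ℝ ∞ V) (hc : HasCompactSupport V)
    (hVi : ∀ x ∈ closedBall (0 : Plane) 1, ∀ u,
      fderiv ℝ f x u = (fderiv ℝ t x u) • V (t x, f x) → u = 0) :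
    ∃ g : ℝ → Plane → Space, ContDiff ℝ ∞ (fun p : ℝ × Plane => g p.1 p.2) ∧ g 0 = f ∧
      (∀ s ∈ Icc (0 : ℝ) 1, SDisc (g s) t ∧ ∀ x ∈ sphere (0 : Plane) 1, g s x = f x) ∧
      ∀ x ∈ closedBall (0 : Plane) 1, Function.Injective (fderiv ℝ (g 1) x) := by
  -- the field without the cut off
  let ρ : ContDiffBump (0 : ℝ) := ⟨1, 2, by norm_num, by norm_num⟩
  obtain ⟨V', hV'def⟩ : ∃ V' : ℝ × (ℝ × Space) → Space, V' = fun p => (ρ p.1 * p.1) • V p.2 :=
    ⟨_, rfl⟩
  have hV's : ContDiff ℝ ∞ V' := by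
    rw [hV'def]
    exact ((ρ.contDiff.comp contDiff_fst).mul contDiff_fst).smul (hV.comp contDiff_snd)
  have hV'c : HasCompactSupport V' := by
    have hcomp : IsCompact (tsupport ρ ×ˢ tsupport V) := IsCompact.prod ρ.hasCompactSupport hc
    refine HasCompactSupport.intro' hcomp hcomp.isClosed fun p hp => ?_
    rw [hV'def]
    show (ρ p.1 * p.1) • V p.2 = 0
    by_cases h1 : p.1 ∈ tsupport ρ
    · have h2 : p.2 ∉ tsupport V := fun h3 => hp ⟨h1, h3⟩
      rw [image_eq_zero_of_notMem_tsupport h2, smul_zero]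
    · rw [image_eq_zero_of_notMem_tsupport h1, zero_mul, zero_smul]
  -- bounds
  obtain ⟨C, hC⟩ : ∃ C : ℝ, ∀ p, ‖V' p‖ ≤ C := by
    obtain ⟨C, hC⟩ := hV's.continuous.bounded_above_of_compact_support hV'c
    exact ⟨C, hC⟩
  have hcont : Continuous fun x : Plane => (t x, f x) := h.smt.continuous.prodMk h.smf.continuous
  obtain ⟨R₀, hR₀⟩ := (isCompact_closedBall (0 : Plane) 1).exists_bound_of_continuousOn
    hcont.continuousOn
  obtain ⟨T, hT⟩ : ∃ T : ℝ, T = max R₀ 0 + 1 := ⟨_, rfl⟩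
  have hT0 : 0 < T := by rw [hT]; positivity
  have hRT : ∀ x ∈ closedBall (0 : Plane) 1, ‖(t x, f x)‖ < T := by
    intro x hx
    have h1 := hR₀ x hx
    have h2 := le_max_left R₀ 0
    linarith
  obtain ⟨D, hD⟩ : ∃ D : ℝ, D = max C 1 := ⟨_, rfl⟩
  have hD1 : 1 ≤ D := by rw [hD]; exact le_max_right _ _
  have hDC : ∀ p, ‖V' p‖ ≤ D := fun p => (hC p).trans (by rw [hD]; exact le_max_left _ _)
  -- the field
  obtain ⟨R, hR⟩ : ∃ R : ℝ, R = T + D * T + 1 := ⟨_, rfl⟩
  have hR0 : 0 < R := by rw [hR]; positivity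
  let χ : ContDiffBump (0 : ℝ × Space) := ⟨R, R + 1, hR0, by linarith⟩
  obtain ⟨W, hWdef⟩ : ∃ W : ℝ × (ℝ × Space) → ℝ × (ℝ × Space),
      W = fun p => (0, (ρ p.1 * χ p.2, V' p)) := ⟨_, rfl⟩
  have hW : ContDiff ℝ ∞ W := by
    rw [hWdef]
    exact contDiff_const.prodMk
      (((ρ.contDiff.comp contDiff_fst).mul (χ.contDiff.comp contDiff_snd)).prodMk hV's)
  have hWc : HasCompactSupport W := by
    have hcomp : IsCompact (tsupport ρ ×ˢ tsupport χ) :=
      IsCompact.prod ρ.hasCompactSupport χ.hasCompactSupport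
    refine HasCompactSupport.intro' (hcomp.union hV'c)
      (hcomp.isClosed.union (isClosed_tsupport _)) fun p hp => ?_
    rw [mem_union, not_or] at hp
    rw [hWdef]
    show ((0 : ℝ), (ρ p.1 * χ p.2, V' p)) = 0
    rw [image_eq_zero_of_notMem_tsupport hp.2]
    have h3 : ρ p.1 * χ p.2 = 0 := by
      by_cases h1 : p.1 ∈ tsupport ρ
      · have h2 : p.2 ∉ tsupport χ := fun h3 => hp.1 ⟨h1, h3⟩
        rw [image_eq_zero_of_notMem_tsupport h2, mul_zero]
      · rw [image_eq_zero_of_notMem_tsupport h1, zero_mul]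
    rw [h3]
    rfl
  have hWD : ∀ p, ‖W p‖ ≤ D := by
    intro p
    rw [hWdef, Prod.norm_def]
    refine max_le ?_ ?_
    · show ‖(0 : ℝ)‖ ≤ D
      rw [norm_zero]
      linarith
    · show ‖(ρ p.1 * χ p.2, V' p)‖ ≤ D
      rw [Prod.norm_def]
      refine max_le ?_ (hDC p)
      show ‖ρ p.1 * χ p.2‖ ≤ D
      rw [norm_mul, Real.norm_of_nonneg χ.nonneg, Real.norm_of_nonneg ρ.nonneg]
      exact (mul_le_one₀ ρ.le_one χ.nonneg χ.le_one).trans hD1
  have hW1 : ∀ p : ℝ × (ℝ × Space), |p.1| ≤ 1 → ‖p.2‖ ≤ R → W p = (0, (1, p.1 • V p.2)) := by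
    intro p hp1 hp
    rw [hWdef, hV'def]
    have h1 : χ p.2 = 1 := χ.one_of_mem_closedBall (by simpa using hp)
    have h2 : ρ p.1 = 1 := ρ.one_of_mem_closedBall (by simpa using hp1)
    show ((0 : ℝ), (ρ p.1 * χ p.2, (ρ p.1 * p.1) • V p.2)) = (0, (1, p.1 • V p.2))
    rw [h1, h2, one_mul, one_mul]
  obtain ⟨Φ, hΦ⟩ := exists_isFlow (hW.of_le (by exact_mod_cast le_top)) hWc
  have hΦs := contDiff_flow hW hWc hΦ
  have hΦ0 := hΦ.zero
  have hΦadd := hΦ.add
  have hΦd : ∀ t x, HasDerivAt (fun s => Φ s x) (W (Φ t x)) t := fun t x => hΦ.deriv x t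
  -- speed bound
  have hspeed : ∀ (p : ℝ × (ℝ × Space)) (r : ℝ), ‖Φ r p - p‖ ≤ D * |r| := by
    intro p r
    have h1 := (convex_univ (𝕜 := ℝ) (E := ℝ)).norm_image_sub_le_of_norm_hasDerivWithin_le
      (f := fun s => Φ s p) (f' := fun s => W (Φ s p)) (C := D)
      (fun s _ => (hΦd s p).hasDerivWithinAt) (fun s _ => hWD _) (mem_univ (0 : ℝ)) (mem_univ r)
    simp only [hΦ0] at h1
    rw [sub_zero, Real.norm_eq_abs] at h1
    exact h1
  -- the parameter
  have hpar : ∀ (p : ℝ × (ℝ × Space)) (r : ℝ), (Φ r p).1 = p.1 := by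
    intro p r
    have h1 : ∀ r, HasDerivAt (fun r => (Φ r p).1) 0 r := by
      intro r
      have h5 := (ContinuousLinearMap.fst ℝ ℝ (ℝ × Space)).hasFDerivAt.comp_hasDerivAt r (hΦd r p)
      rw [hWdef] at h5
      exact h5
    have h2 := (convex_univ (𝕜 := ℝ) (E := ℝ)).norm_image_sub_le_of_norm_hasDerivWithin_le
      (C := 0) (fun r _ => (h1 r).hasDerivWithinAt) (fun r _ => by simp) (mem_univ (0 : ℝ))
      (mem_univ r)
    rw [zero_mul, norm_le_zero_iff] at h2
    simp only [hΦ0] at h2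
    linarith
  -- the time coordinate
  have htime : ∀ (p : ℝ × (ℝ × Space)), |p.1| ≤ 1 → ‖p.2‖ < T → ∀ r : ℝ, |r| < T →
      (Φ r p).2.1 = p.2.1 + r := by
    intro p hp1 hp r hr
    have h1 : ∀ r ∈ Icc (-T) T, HasDerivWithinAt (fun r => (Φ r p).2.1 - r) 0 (Icc (-T) T) r := by
      intro r hr
      have h2 : ‖(Φ r p).2‖ ≤ R := by
        have h3 := hspeed p r
        have h4 : |r| ≤ T := abs_le.2 hr
        have h3' : ‖(Φ r p).2 - p.2‖ ≤ ‖Φ r p - p‖ := norm_snd_le (Φ r p - p)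
        have h5 : ‖(Φ r p).2‖ ≤ ‖(Φ r p).2 - p.2‖ + ‖p.2‖ := by
          have := norm_add_le ((Φ r p).2 - p.2) p.2
          simpa using this
        have h6 : D * |r| ≤ D * T := mul_le_mul_of_nonneg_left h4 (by linarith)
        rw [hR]
        linarith
      have h3 := (hΦd r p)
      rw [hW1 _ (by rw [hpar]; exact hp1) h2] at h3
      have h4 : HasDerivAt (fun r => (Φ r p).2.1) 1 r := by
        have h5 := ((ContinuousLinearMap.fst ℝ ℝ Space).comp
          (ContinuousLinearMap.snd ℝ ℝ (ℝ × Space))).hasFDerivAt.comp_hasDerivAt r h3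
        exact h5
      have h6 : HasDerivAt (fun r => (Φ r p).2.1 - r) (1 - 1) r := h4.sub (hasDerivAt_id r)
      rw [sub_self] at h6
      exact h6.hasDerivWithinAt
    have hmem : r ∈ Icc (-T) T := ⟨(neg_lt_of_abs_lt hr).le, (lt_of_abs_lt hr).le⟩
    have hmem0 : (0 : ℝ) ∈ Icc (-T) T := ⟨by linarith, hT0.le⟩
    have h2 := (convex_Icc (-T) T).norm_image_sub_le_of_norm_hasDerivWithin_le
      (C := 0) h1 (fun r _ => by simp) hmem0 hmem
    rw [zero_mul, norm_le_zero_iff] at h2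
    simp only [hΦ0] at h2
    linarith
  -- the new map
  obtain ⟨g, hg⟩ : ∃ g : ℝ → Plane → Space, g = fun s x => (Φ (-t x) (s, (t x, f x))).2.2 :=
    ⟨_, rfl⟩
  have hgs : ContDiff ℝ ∞ (fun p : ℝ × Plane => g p.1 p.2) := by
    rw [hg]
    have ht2 : ContDiff ℝ ∞ fun p : ℝ × Plane => t p.2 := h.smt.comp contDiff_snd
    have hf2 : ContDiff ℝ ∞ fun p : ℝ × Plane => f p.2 := h.smf.comp contDiff_snd
    have h1 : ContDiff ℝ ∞ fun p : ℝ × Plane => (-t p.2, (p.1, (t p.2, f p.2))) :=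
      ht2.neg.prodMk (contDiff_fst.prodMk (ht2.prodMk hf2))
    exact (hΦs.comp h1).snd.snd
  have hgss : ∀ s, ContDiff ℝ ∞ (g s) := by
    intro s
    have h1 : ContDiff ℝ ∞ fun x : Plane => (s, x) := contDiff_const.prodMk contDiff_id
    exact hgs.comp h1
  have hkey : ∀ s : ℝ, |s| ≤ 1 → ∀ x, ‖(t x, f x)‖ < T →
      Φ (t x) (s, (0, g s x)) = (s, (t x, f x)) := by
    intro s hs x hx
    have h1 : |(-t x)| < T := by
      rw [abs_neg]
      exact (norm_fst_le (t x, f x)).trans_lt hx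
    have h2 := htime (s, (t x, f x)) hs hx (-t x) h1
    have h4 := hpar (s, (t x, f x)) (-t x)
    have h3 : Φ (-t x) (s, (t x, f x)) = (s, (0, g s x)) := by
      rw [hg]
      ext1
      · exact h4
      · ext1
        · rw [h2]; simp
        · rfl
    rw [← h3, ← hΦadd, add_neg_cancel, hΦ0]
  have hopen : IsOpen {x : Plane | ‖(t x, f x)‖ < T} := isOpen_lt hcont.norm continuous_const
  have hTR : T ≤ R := by
    rw [hR]
    nlinarith
  have hder : ∀ s : ℝ, |s| ≤ 1 → ∀ x ∈ closedBall (0 : Plane) 1, ∀ u, fderiv ℝ (g s) x u = 0 →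
      fderiv ℝ f x u = (fderiv ℝ t x u) • (s • V (t x, f x)) := by
    intro s hs x hx u hu
    have hgd : HasFDerivAt (g s) (fderiv ℝ (g s) x) x :=
      (((hgss s).differentiable (by simp)) x).hasFDerivAt
    have htd : HasFDerivAt t (fderiv ℝ t x) x := ((h.smt.differentiable (by simp)) x).hasFDerivAt
    have hfd : HasFDerivAt f (fderiv ℝ f x) x := ((h.smf.differentiable (by simp)) x).hasFDerivAt
    have hP : HasFDerivAt (fun p : ℝ × (ℝ × (ℝ × Space)) => Φ p.1 p.2)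
        (fderiv ℝ (fun p : ℝ × (ℝ × (ℝ × Space)) => Φ p.1 p.2) (t x, (s, (0, g s x))))
        (t x, (s, (0, g s x))) :=
      ((hΦs.differentiable (by simp)) _).hasFDerivAt
    have hcd : HasFDerivAt (fun y => (t y, (s, ((0 : ℝ), g s y))))
        ((fderiv ℝ t x).prod ((0 : Plane →L[ℝ] ℝ).prod
          ((0 : Plane →L[ℝ] ℝ).prod (fderiv ℝ (g s) x)))) x :=
      htd.prodMk ((hasFDerivAt_const s x).prodMk ((hasFDerivAt_const (0 : ℝ) x).prodMk hgd))
    have h1 : HasFDerivAt (fun y => Φ (t y) (s, (0, g s y)))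
        ((fderiv ℝ (fun p : ℝ × (ℝ × (ℝ × Space)) => Φ p.1 p.2) (t x, (s, (0, g s x)))).comp
          ((fderiv ℝ t x).prod ((0 : Plane →L[ℝ] ℝ).prod
            ((0 : Plane →L[ℝ] ℝ).prod (fderiv ℝ (g s) x))))) x :=
      HasFDerivAt.comp (g := fun p : ℝ × (ℝ × (ℝ × Space)) => Φ p.1 p.2) x hP hcd
    have h2 : (fun y => Φ (t y) (s, (0, g s y))) =ᶠ[𝓝 x] fun y => (s, (t y, f y)) := by
      filter_upwards [hopen.mem_nhds (hRT x hx)] with y hy
      exact hkey s hs y hy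
    have h3 := (h1.congr_of_eventuallyEq h2.symm).unique
      ((hasFDerivAt_const s x).prodMk (htd.prodMk hfd))
    have h4 := congrArg (fun L : Plane →L[ℝ] ℝ × (ℝ × Space) => L u) h3
    simp only [ContinuousLinearMap.comp_apply, ContinuousLinearMap.prod_apply,
      ContinuousLinearMap.zero_apply, hu] at h4
    have h5 : HasDerivAt (fun r => Φ r (s, (0, g s x)))
        (fderiv ℝ (fun p : ℝ × (ℝ × (ℝ × Space)) => Φ p.1 p.2) (t x, (s, (0, g s x))) (1, 0))
        (t x) := by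
      have h6 : HasDerivAt (fun r : ℝ => (r, (s, ((0 : ℝ), g s x))))
          ((1 : ℝ), (0 : ℝ × (ℝ × Space))) (t x) :=
        (hasDerivAt_id (t x)).prodMk (hasDerivAt_const _ _)
      exact HasFDerivAt.comp_hasDerivAt
        (l := fun p : ℝ × (ℝ × (ℝ × Space)) => Φ p.1 p.2) (t x) hP h6
    have h6 := h5.unique (hΦd (t x) (s, (0, g s x)))
    rw [hkey s hs x (hRT x hx), hW1 _ hs ((hRT x hx).le.trans hTR)] at h6
    have h7 : ((fderiv ℝ t x u, ((0 : ℝ), ((0 : ℝ), (0 : Space)))) : ℝ × (ℝ × (ℝ × Space))) =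
        fderiv ℝ t x u • ((1 : ℝ), (0 : ℝ × (ℝ × Space))) := by
      simp
    rw [h7, map_smul, h6] at h4
    have h8 := congrArg (fun p : ℝ × (ℝ × Space) => p.2.2) h4
    exact h8.symm
  refine ⟨g, hgs, ?_, ?_, ?_⟩
  · -- the start
    funext x
    have h1 : ∀ r, HasDerivAt (fun r => (Φ r (0, (t x, f x))).2.2) 0 r := by
      intro r
      have h5 := ((ContinuousLinearMap.snd ℝ ℝ Space).comp
        (ContinuousLinearMap.snd ℝ ℝ (ℝ × Space))).hasFDerivAt.comp_hasDerivAt r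
        (hΦd r (0, (t x, f x)))
      have h6 : (W (Φ r (0, (t x, f x)))).2.2 = 0 := by
        rw [hWdef, hV'def]
        show (ρ (Φ r (0, (t x, f x))).1 * (Φ r (0, (t x, f x))).1) •
          V (Φ r (0, (t x, f x))).2 = 0
        rw [hpar]
        simp
      have h7 : ((ContinuousLinearMap.snd ℝ ℝ Space).comp
        (ContinuousLinearMap.snd ℝ ℝ (ℝ × Space))) (W (Φ r (0, (t x, f x)))) = 0 := h6
      rw [h7] at h5
      exact h5
    have h2 := (convex_univ (𝕜 := ℝ) (E := ℝ)).norm_image_sub_le_of_norm_hasDerivWithin_le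
      (C := 0) (fun r _ => (h1 r).hasDerivWithinAt) (fun r _ => by simp) (mem_univ (0 : ℝ))
      (mem_univ (-t x))
    rw [zero_mul, norm_le_zero_iff] at h2
    simp only [hΦ0] at h2
    rw [hg]
    exact sub_eq_zero.1 h2
  · intro s hs
    have hs1 : |s| ≤ 1 := by
      rw [abs_of_nonneg hs.1]
      exact hs.2
    refine ⟨⟨hgss s, h.smt, ?_, ?_, h.bd, h.pos⟩, ?_⟩
    · intro x hx y hy hxy htxy
      have h1 := hkey s hs1 x (hRT x hx)
      have h2 := hkey s hs1 y (hRT y hy)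
      rw [hxy, htxy, h2, Prod.mk.injEq, Prod.mk.injEq] at h1
      exact h.inj x hx y hy h1.2.2.symm htxy
    · intro x hx u hu ht
      refine h.imm x hx u ?_ ht
      rw [hder s hs1 x hx u hu, ht, zero_smul]
    · intro x hx
      rw [hg]
      show (Φ (-t x) (s, (t x, f x))).2.2 = f x
      rw [h.bd x hx, neg_zero, hΦ0]
  · intro x hx
    rw [injective_iff_map_eq_zero]
    intro u hu
    refine hVi x hx u ?_
    have h1 := hder 1 (by simp) x hx u hu
    rw [one_smul] at h1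
    exact h1

end Pool.Agent.Lib_MP_752436_hk
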