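import Pool.Agent.Lib_MP_752436_hk.Defs

/-!
PIECE REL: `DiscIsotopic` is transitive; straight paths; changes of the height.

trans: H s = H1 (smoothTransition (3 s)) for s < 1/2, H2 (smoothTransition (3 s - 2)) for s > 1/2; near
s = 1/2 both are the constant path G (for all x in the plane), so H is smooth.
height: H s = lift4 f ((1 - s) t + s t').
-/

open Metric Set Filter
open scoped ContDiff Topology

namespace Pool.Agent.Lib_MP_752436_hk

open Pool.Agent.Lib_MP_752436_gt Pool.Agent.Lib_MP_752436_tp Pool.Agent.Lib_MP_752436_rb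
  Pool.Agent.Lib_MP_752436_nb

theorem DiscIsotopic.refl {F : Plane → EuclideanSpace ℝ (Fin 4)} (hF : IsSliceDisc F) :
    DiscIsotopic F F :=
  ⟨fun _ => F, hF.smooth.comp contDiff_snd, rfl, rfl, fun _ _ => ⟨hF, fun _ _ => rfl⟩⟩

theorem DiscIsotopic.symm {F G : Plane → EuclideanSpace ℝ (Fin 4)} (h : DiscIsotopic F G) :
    DiscIsotopic G F := by
  obtain ⟨H, hH, h0, h1, hs⟩ := h
  refine ⟨fun s => H (1 - s), ?_, ?_, ?_, fun s hs' => ?_⟩
  · have h2 : ContDiff ℝ ∞ (fun p : ℝ × Plane => ((1 - p.1, p.2) : ℝ × Plane)) :=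
      (contDiff_const.sub contDiff_fst).prodMk contDiff_snd
    exact hH.comp h2
  · show H (1 - 0) = G
    rw [sub_zero, h1]
  · show H (1 - 1) = F
    rw [sub_self, h0]
  · have h2 : 1 - s ∈ Icc (0 : ℝ) 1 := ⟨by linarith [hs'.2], by linarith [hs'.1]⟩
    refine ⟨(hs _ h2).1, fun x hx => ?_⟩
    show H (1 - s) x = G x
    rw [(hs _ h2).2 x hx, ← h1, (hs 1 ⟨zero_le_one, le_rfl⟩).2 x hx]

theorem DiscIsotopic.slice_right {F G : Plane → EuclideanSpace ℝ (Fin 4)}
    (h : DiscIsotopic F G) : IsSliceDisc G := by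
  obtain ⟨H, -, -, h1, hs⟩ := h
  rw [← h1]
  exact (hs 1 ⟨zero_le_one, le_rfl⟩).1

theorem DiscIsotopic.eq_on_sphere {F G : Plane → EuclideanSpace ℝ (Fin 4)}
    (h : DiscIsotopic F G) {x : Plane} (hx : x ∈ sphere (0 : Plane) 1) : G x = F x := by
  obtain ⟨H, -, -, h1, hs⟩ := h
  rw [← h1]
  exact (hs 1 ⟨zero_le_one, le_rfl⟩).2 x hx

theorem DiscIsotopic.trans {F G K : Plane → EuclideanSpace ℝ (Fin 4)} (h : DiscIsotopic F G)
    (h' : DiscIsotopic G K) : DiscIsotopic F K := by
  have hGF := fun x (hx : x ∈ sphere (0 : Plane) 1) => h.eq_on_sphere hx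
  obtain ⟨H, hH, h0, h1, hs⟩ := h
  obtain ⟨H', hH', h0', h1', hs'⟩ := h'
  set J : ℝ → Plane → EuclideanSpace ℝ (Fin 4) := fun s x =>
    if s < 1 / 2 then H (Real.smoothTransition (3 * s)) x
    else H' (Real.smoothTransition (3 * s - 2)) x with hJ
  have hA : ContDiff ℝ ∞ (fun p : ℝ × Plane => H (Real.smoothTransition (3 * p.1)) p.2) := by
    have h2 : ContDiff ℝ ∞ (fun p : ℝ × Plane =>
        ((Real.smoothTransition (3 * p.1), p.2) : ℝ × Plane)) :=
      (Real.smoothTransition.contDiff.comp (contDiff_const.mul contDiff_fst)).prodMk contDiff_snd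
    exact hH.comp h2
  have hB : ContDiff ℝ ∞ (fun p : ℝ × Plane => H' (Real.smoothTransition (3 * p.1 - 2)) p.2) := by
    have h2 : ContDiff ℝ ∞ (fun p : ℝ × Plane =>
        ((Real.smoothTransition (3 * p.1 - 2), p.2) : ℝ × Plane)) :=
      (Real.smoothTransition.contDiff.comp
        ((contDiff_const.mul contDiff_fst).sub contDiff_const)).prodMk contDiff_snd
    exact hH'.comp h2
  have hmem : ∀ r : ℝ, Real.smoothTransition r ∈ Icc (0 : ℝ) 1 := fun r =>
    ⟨Real.smoothTransition.nonneg r, Real.smoothTransition.le_one r⟩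
  refine ⟨J, ?_, ?_, ?_, fun s _ => ?_⟩
  · rw [contDiff_iff_contDiffAt]
    rintro ⟨s, x⟩
    rcases lt_trichotomy s (1 / 2) with hlt | heq | hgt
    · refine hA.contDiffAt.congr_of_eventuallyEq ?_
      have h2 : ∀ᶠ p : ℝ × Plane in 𝓝 (s, x), p.1 < 1 / 2 :=
        continuous_fst.continuousAt.eventually_lt continuousAt_const hlt
      filter_upwards [h2] with p hp
      simp only [hJ, if_pos hp]
    · refine (hA.contDiffAt (x := (s, x))).congr_of_eventuallyEq ?_
      have h2 : ∀ᶠ p : ℝ × Plane in 𝓝 (s, x), 1 / 3 < p.1 ∧ p.1 < 2 / 3 := by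
        refine (continuousAt_const.eventually_lt continuous_fst.continuousAt ?_).and
          (continuous_fst.continuousAt.eventually_lt continuousAt_const ?_)
        · show (1 / 3 : ℝ) < s
          rw [heq]; norm_num
        · show s < 2 / 3
          rw [heq]; norm_num
      filter_upwards [h2] with p hp
      have h3 : Real.smoothTransition (3 * p.1) = 1 :=
        Real.smoothTransition.one_of_one_le (by linarith [hp.1])
      have h4 : Real.smoothTransition (3 * p.1 - 2) = 0 :=
        Real.smoothTransition.zero_of_nonpos (by linarith [hp.2])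
      simp only [hJ]
      rw [h3, h4, h1, h0']
      simp
    · refine hB.contDiffAt.congr_of_eventuallyEq ?_
      have h2 : ∀ᶠ p : ℝ × Plane in 𝓝 (s, x), 1 / 2 < p.1 :=
        continuousAt_const.eventually_lt continuous_fst.continuousAt hgt
      filter_upwards [h2] with p hp
      simp only [hJ, if_neg (not_lt.2 hp.le)]
  · funext x
    have h2 : (0 : ℝ) < 1 / 2 := by norm_num
    simp only [hJ, if_pos h2]
    rw [mul_zero, Real.smoothTransition.zero, h0]
  · funext x
    have h2 : ¬ (1 : ℝ) < 1 / 2 := by norm_num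
    have h3 : (3 * 1 - 2 : ℝ) = 1 := by norm_num
    simp only [hJ, if_neg h2]
    rw [h3, Real.smoothTransition.one, h1']
  · by_cases h2 : s < 1 / 2
    · have h3 : J s = H (Real.smoothTransition (3 * s)) := by
        funext x
        simp only [hJ, if_pos h2]
      rw [h3]
      exact hs _ (hmem _)
    · have h3 : J s = H' (Real.smoothTransition (3 * s - 2)) := by
        funext x
        simp only [hJ, if_neg h2]
      rw [h3]
      refine ⟨(hs' _ (hmem _)).1, fun x hx => ?_⟩
      rw [(hs' _ (hmem _)).2 x hx, hGF x hx]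

theorem DiscIsotopic.boundaryKnot_eq {F G : Plane → EuclideanSpace ℝ (Fin 4)}
    (h : DiscIsotopic F G) : boundaryKnot G = boundaryKnot F := by
  unfold boundaryKnot
  refine image_congr fun x hx => ?_
  unfold shadow
  rw [h.eq_on_sphere hx]

/-- Straight paths. -/
theorem discIsotopic_of_line {F G : Plane → EuclideanSpace ℝ (Fin 4)}
    (h : ∀ s ∈ Icc (0 : ℝ) 1, IsSliceDisc (fun x => (1 - s) • F x + s • G x))
    (hbd : ∀ x, ∀ i, i ≠ 3 → G x i = F x i) : DiscIsotopic F G := by
  have h0 := h 0 ⟨le_rfl, zero_le_one⟩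
  have h1 := h 1 ⟨zero_le_one, le_rfl⟩
  simp only [sub_zero, one_smul, zero_smul, add_zero, sub_self, zero_add] at h0 h1
  have hF : IsSliceDisc F := h0
  have hG : IsSliceDisc G := h1
  refine ⟨fun s x => (1 - s) • F x + s • G x, ?_, ?_, ?_, fun s hs => ⟨h s hs, fun x hx => ?_⟩⟩
  · exact ((contDiff_const.sub contDiff_fst).smul (hF.smooth.comp contDiff_snd)).add
      (contDiff_fst.smul (hG.smooth.comp contDiff_snd))
  · funext x
    simp
  · funext x
    simp
  · have h2 : G x = F x := by
      ext i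
      by_cases hi : i = 3
      · rw [hi, hF.boundary x hx, hG.boundary x hx]
      · exact hbd x i hi
    show (1 - s) • F x + s • G x = F x
    rw [h2, ← add_smul]
    simp

/-- Changing the height without changing the order of the double points. -/
theorem discIsotopic_of_height {f : Plane → Space} {t t' : Plane → ℝ} (h : SDisc f t)
    (h' : SDisc f t')
    (him : ∀ x ∈ closedBall (0 : Plane) 1, Function.Injective (fderiv ℝ f x))
    (hord : ∀ x ∈ closedBall (0 : Plane) 1, ∀ y ∈ closedBall (0 : Plane) 1, f x = f y →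
      t x < t y → t' x < t' y) : DiscIsotopic (lift4 f t) (lift4 f t') := by
  have key : ∀ s ∈ Icc (0 : ℝ) 1, SDisc f (fun x => (1 - s) * t x + s * t' x) := by
    intro s hs
    have hlt : ∀ x ∈ closedBall (0 : Plane) 1, ∀ y ∈ closedBall (0 : Plane) 1, f x = f y →
        t x < t y → (1 - s) * t x + s * t' x < (1 - s) * t y + s * t' y := by
      intro x hx y hy hxy hlt
      have h1 := hord x hx y hy hxy hlt
      rcases hs.1.eq_or_lt with h2 | h2
      · rw [← h2]
        simpa using hlt
      · have h3 : (1 - s) * t x ≤ (1 - s) * t y :=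
          mul_le_mul_of_nonneg_left hlt.le (by linarith [hs.2])
        have h4 : s * t' x < s * t' y := mul_lt_mul_of_pos_left h1 h2
        linarith
    refine ⟨h.smf, (contDiff_const.mul h.smt).add (contDiff_const.mul h'.smt), ?_, ?_, ?_, ?_⟩
    · intro x hx y hy hxy hT
      rcases lt_trichotomy (t x) (t y) with h1 | h1 | h1
      · exact absurd hT (hlt x hx y hy hxy h1).ne
      · exact h.inj x hx y hy hxy h1
      · exact absurd hT (hlt y hy x hx hxy.symm h1).ne'
    · intro x hx u hu _
      exact (injective_iff_map_eq_zero _).1 (him x hx) u hu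
    · intro x hx
      simp only [h.bd x hx, h'.bd x hx, mul_zero, add_zero]
    · intro x hx
      have h1 := h.pos x hx
      have h2 := h'.pos x hx
      rcases hs.1.eq_or_lt with h3 | h3
      · rw [← h3]
        simpa using h1
      · have h4 : 0 ≤ (1 - s) * t x := mul_nonneg (by linarith [hs.2]) h1.le
        have h5 : 0 < s * t' x := mul_pos h3 h2
        show 0 < (1 - s) * t x + s * t' x
        linarith
  refine ⟨fun s => lift4 f (fun x => (1 - s) * t x + s * t' x), ?_, ?_, ?_, fun s hs =>
    ⟨isSliceDisc_of_sdisc (key s hs), fun x hx => ?_⟩⟩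
  · have hc := contDiff_euclidean.1 (h.smf.comp (contDiff_snd (E := ℝ) (F := Plane)))
    have hh : ContDiff ℝ ∞ (fun p : ℝ × Plane => (1 - p.1) * t p.2 + p.1 * t' p.2) :=
      ((contDiff_const.sub contDiff_fst).mul (h.smt.comp contDiff_snd)).add
        (contDiff_fst.mul (h'.smt.comp contDiff_snd))
    refine contDiff_euclidean.2 (fun i => ?_)
    fin_cases i
    · exact hc 0
    · exact hc 1
    · exact hc 2
    · exact hh
  · simp
  · simp
  · have h1 : (1 - s) * t x + s * t' x = t x := by
      rw [h.bd x hx, h'.bd x hx]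
      simp
    show (!₂[f x 0, f x 1, f x 2, (1 - s) * t x + s * t' x] : EuclideanSpace ℝ (Fin 4)) =
      !₂[f x 0, f x 1, f x 2, t x]
    rw [h1]

theorem lift4_shadow_height (F : Plane → EuclideanSpace ℝ (Fin 4)) :
    lift4 (shadow F) (height F) = F := by
  funext x
  ext i
  fin_cases i <;> simp [lift4, shadow, height]

end Pool.Agent.Lib_MP_752436_hk
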