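import Pool.Agent.Lib_MP_752436_hg.Super

/-!
PIECE SUPERB: the versions of exists_height (hg/Super.lean) and exists_small_lt (hg/Cont.lean) on a
compact subset K of the closed disc. Same proofs.
-/

open Metric Set Filter
open scoped ContDiff Topology

namespace Pool.Agent.Lib_MP_752436_hk

open Pool.Agent.Lib_MP_752436_gt Pool.Agent.Lib_MP_752436_tp Pool.Agent.Lib_MP_752436_rb
  Pool.Agent.Lib_MP_752436_nb Pool.Agent.Lib_MP_752436_hg

/-- Compactness: one constant for the whole disc. -/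
private theorem exists_const {D : Set Plane} (hD : IsCompact D) (hne : D.Nonempty)
    {l p : Plane → ℝ} (hl : ContinuousOn l D) (hp : ContinuousOn p D)
    (hp0 : ∀ x ∈ D, 0 ≤ p x) (h : ∀ x ∈ D, l x < 0 ∨ 0 < p x) :
    ∃ L > 0, ∃ m > 0, ∀ x ∈ D, l x - L * p x ≤ -m := by
  have h1 : ∃ N : ℝ, ∀ x ∈ D, l x - N * p x < 0 := by
    have h2 : ∃ N : ℝ, ∀ x ∈ D ∩ D, l x - N * p x < 0 := by
      refine hD.induction_on (p := fun s => ∃ N : ℝ, ∀ x ∈ s ∩ D, l x - N * p x < 0) ?_ ?_ ?_ ?_
      · exact ⟨0, fun x hx => absurd hx.1 (notMem_empty x)⟩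
      · rintro s s' hs ⟨N, hN⟩
        exact ⟨N, fun x hx => hN x ⟨hs hx.1, hx.2⟩⟩
      · rintro s s' ⟨N, hN⟩ ⟨N', hN'⟩
        refine ⟨max N N', fun x hx => ?_⟩
        have h3 := hp0 x hx.2
        rcases hx.1 with h4 | h4
        · have h5 := hN x ⟨h4, hx.2⟩
          have h6 := mul_le_mul_of_nonneg_right (le_max_left N N') h3
          linarith
        · have h5 := hN' x ⟨h4, hx.2⟩
          have h6 := mul_le_mul_of_nonneg_right (le_max_right N N') h3
          linarith
      · intro x hx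
        have h3 : ∃ N : ℝ, l x - N * p x < 0 := by
          rcases h x hx with h4 | h4
          · exact ⟨0, by simpa using h4⟩
          · refine ⟨(l x + 1) / p x, ?_⟩
            rw [div_mul_cancel₀ _ h4.ne']
            linarith
        obtain ⟨N, hN⟩ := h3
        refine ⟨{y | l y - N * p y < 0}, ?_, N, fun y hy => hy.1⟩
        have h4 : ContinuousWithinAt (fun y => l y - N * p y) D x :=
          (hl x hx).sub (continuousWithinAt_const.mul (hp x hx))
        exact h4.eventually_lt continuousWithinAt_const hN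
    obtain ⟨N, hN⟩ := h2
    exact ⟨N, fun x hx => hN x ⟨hx, hx⟩⟩
  obtain ⟨N, hN⟩ := h1
  have hL : (0 : ℝ) < max N 1 := lt_max_of_lt_right one_pos
  have hc : ContinuousOn (fun x => l x - max N 1 * p x) D := hl.sub (continuousOn_const.mul hp)
  obtain ⟨x₀, hx₀, hmax⟩ := hD.exists_isMaxOn hne hc
  refine ⟨max N 1, hL, -(l x₀ - max N 1 * p x₀), ?_, fun x hx => ?_⟩
  · have h2 := hN x₀ hx₀
    have h3 := mul_le_mul_of_nonneg_right (le_max_left N 1) (hp0 x₀ hx₀)
    linarith
  · rw [neg_neg]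
    exact hmax hx

/-- The derivatives of the profile. -/
private theorem profile (L C : ℝ) :
    ∃ G : ℝ → ℝ, G = (fun s => (1 - Real.exp (-L * s)) * Real.exp (C * (1 - Real.exp (-L * s)))) ∧
      ContDiff ℝ ∞ G ∧
      (∀ s, deriv G s = L * Real.exp (-L * s) * Real.exp (C * (1 - Real.exp (-L * s))) *
        (1 + C * (1 - Real.exp (-L * s)))) ∧
      ∀ s, deriv (deriv G) s = Real.exp (C * (1 - Real.exp (-L * s))) *
        (-L * (L * Real.exp (-L * s)) * (1 + C * (1 - Real.exp (-L * s))) +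
          (L * Real.exp (-L * s)) ^ 2 * C * (2 + C * (1 - Real.exp (-L * s)))) := by
  refine ⟨_, rfl, ?_, ?_⟩
  · have h1 : ContDiff ℝ ∞ fun s : ℝ => 1 - Real.exp (-L * s) :=
      contDiff_const.sub (contDiff_const.mul contDiff_id).exp
    exact h1.mul (contDiff_const.mul h1).exp
  · have hE : ∀ s : ℝ, HasDerivAt (fun s => Real.exp (-L * s)) (-L * Real.exp (-L * s)) s := by
      intro s
      have h1 : HasDerivAt (fun s : ℝ => -L * s) (-L) s := by
        simpa using (hasDerivAt_id s).const_mul (-L)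
      have h2 := h1.exp
      rw [mul_comm] at h2
      exact h2
    have hP : ∀ s : ℝ, HasDerivAt (fun s => 1 - Real.exp (-L * s)) (L * Real.exp (-L * s)) s := by
      intro s
      have h1 := (hE s).const_sub 1
      have h2 : -(-L * Real.exp (-L * s)) = L * Real.exp (-L * s) := by ring
      rw [h2] at h1
      exact h1
    have hK : ∀ s : ℝ, HasDerivAt (fun s => Real.exp (C * (1 - Real.exp (-L * s))))
        (Real.exp (C * (1 - Real.exp (-L * s))) * (C * (L * Real.exp (-L * s)))) s := by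
      intro s
      exact ((hP s).const_mul C).exp
    have h1 : ∀ s : ℝ, HasDerivAt
        (fun s => (1 - Real.exp (-L * s)) * Real.exp (C * (1 - Real.exp (-L * s))))
        (L * Real.exp (-L * s) * Real.exp (C * (1 - Real.exp (-L * s))) *
          (1 + C * (1 - Real.exp (-L * s)))) s := by
      intro s
      have h2 := (hP s).mul (hK s)
      have h3 : L * Real.exp (-L * s) * Real.exp (C * (1 - Real.exp (-L * s))) +
          (1 - Real.exp (-L * s)) *
            (Real.exp (C * (1 - Real.exp (-L * s))) * (C * (L * Real.exp (-L * s)))) =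
          L * Real.exp (-L * s) * Real.exp (C * (1 - Real.exp (-L * s))) *
          (1 + C * (1 - Real.exp (-L * s))) := by ring
      rw [h3] at h2
      exact h2
    have h2 : ∀ s : ℝ, deriv
        (fun s => (1 - Real.exp (-L * s)) * Real.exp (C * (1 - Real.exp (-L * s)))) s =
        L * Real.exp (-L * s) * Real.exp (C * (1 - Real.exp (-L * s))) *
          (1 + C * (1 - Real.exp (-L * s))) := fun s => (h1 s).deriv
    refine ⟨h2, fun s => ?_⟩
    rw [funext h2]
    have h3 := (((hE s).const_mul L).mul (hK s)).mul (((hP s).const_mul C).const_add 1)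
    refine h3.deriv.trans ?_
    simp only [Pi.mul_apply]
    ring

theorem exists_height_on {f : Plane → Space} {t : Plane → ℝ} (hf : ContDiff ℝ ∞ f)
    (ht : ContDiff ℝ ∞ t)
    (him : ∀ x ∈ closedBall (0 : Plane) 1, Function.Injective (fderiv ℝ f x))
    (hbd : ∀ x ∈ sphere (0 : Plane) 1, t x = 0) (hpos : ∀ x ∈ ball (0 : Plane) 1, 0 < t x)
    (hneat : ∀ x ∈ sphere (0 : Plane) 1, fderiv ℝ t x ≠ 0)
    {K : Set Plane} (hK : IsCompact K) (hKD : K ⊆ closedBall 0 1)
    (hcrit : ∀ x ∈ K, fderiv ℝ t x = 0 → nF f t x < 0) :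
    ∃ G : ℝ → ℝ, ContDiff ℝ ∞ G ∧ G 0 = 0 ∧ StrictMonoOn G (Ici 0) ∧
      ∀ x ∈ K, bF f (fun y => G (t y)) 0 x < 0 := by
  rcases K.eq_empty_or_nonempty with hne | hne
  · refine ⟨fun s => s, contDiff_id, rfl, fun a _ b _ hab => hab, fun x hx => ?_⟩
    rw [hne] at hx
    exact absurd hx (notMem_empty x)
  have hD : IsCompact (closedBall (0 : Plane) 1) := isCompact_closedBall _ _
  obtain ⟨L, hL, m, hm, hLm⟩ := exists_const hK hne ((continuousOn_lF hf ht him).mono hKD)
    ((continuousOn_pF hf ht him).mono hKD) (fun x hx => pF_nonneg t (him x (hKD hx)))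
    (fun x hx => by
      by_cases h : fderiv ℝ t x = 0
      · left
        rw [lF_of_crit h]
        linarith [hcrit x hx h]
      · right
        exact pF_pos (him x (hKD hx)) h)
  obtain ⟨A, hA⟩ := hD.bddAbove_image ht.continuous.continuousOn
  obtain ⟨H₀, hH₀⟩ := hD.bddAbove_image (continuousOn_hF hf him)
  have hA' : ∀ x ∈ closedBall (0 : Plane) 1, t x ≤ A := fun x hx => hA (mem_image_of_mem _ hx)
  have hH' : ∀ x ∈ closedBall (0 : Plane) 1, hF f x ≤ max H₀ 0 := fun x hx =>
    (hH₀ (mem_image_of_mem _ hx)).trans (le_max_left _ _)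
  have hH0 : 0 ≤ max H₀ 0 := le_max_right _ _
  have hP0 : 0 < L * Real.exp (-L * A) := mul_pos hL (Real.exp_pos _)
  obtain ⟨C, hC⟩ : ∃ C : ℝ, C = max H₀ 0 / (L * Real.exp (-L * A) * m) := ⟨_, rfl⟩
  have hC0 : 0 ≤ C := by rw [hC]; positivity
  have hCm : C * (L * Real.exp (-L * A)) * m = max H₀ 0 := by
    rw [hC]
    field_simp
  obtain ⟨G, hG, hGs, hG1, hG2⟩ := profile L C
  have hmono : StrictMonoOn G (Ici 0) := by
    intro a ha b _ hab
    rw [hG]
    have h1 : Real.exp (-L * b) < Real.exp (-L * a) := by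
      rw [Real.exp_lt_exp]
      nlinarith
    have h2 : Real.exp (-L * a) ≤ 1 := by
      rw [Real.exp_le_one_iff]
      have : (0 : ℝ) ≤ a := ha
      nlinarith
    have h3 : Real.exp (C * (1 - Real.exp (-L * a))) ≤ Real.exp (C * (1 - Real.exp (-L * b))) := by
      rw [Real.exp_le_exp]
      exact mul_le_mul_of_nonneg_left (by linarith) hC0
    show (1 - Real.exp (-L * a)) * Real.exp (C * (1 - Real.exp (-L * a))) <
      (1 - Real.exp (-L * b)) * Real.exp (C * (1 - Real.exp (-L * b)))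
    calc (1 - Real.exp (-L * a)) * Real.exp (C * (1 - Real.exp (-L * a)))
        ≤ (1 - Real.exp (-L * a)) * Real.exp (C * (1 - Real.exp (-L * b))) :=
          mul_le_mul_of_nonneg_left h3 (by linarith)
      _ < (1 - Real.exp (-L * b)) * Real.exp (C * (1 - Real.exp (-L * b))) :=
          mul_lt_mul_of_pos_right (by linarith) (Real.exp_pos _)
  refine ⟨G, hGs, by rw [hG]; simp, hmono, fun x hxK => ?_⟩
  have hx := hKD hxK
  rw [bF_comp ht hGs (him x hx), hG1, hG2]
  have hGx : G (t x) =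
      (1 - Real.exp (-L * t x)) * Real.exp (C * (1 - Real.exp (-L * t x))) := by rw [hG]
  rw [hGx]
  have h1 := hLm x hxK
  have h2 := hA' x hx
  have h3 := hH' x hx
  have h4 := pF_nonneg t (him x hx)
  have hEA : Real.exp (-L * A) ≤ Real.exp (-L * t x) := by
    rw [Real.exp_le_exp]
    nlinarith
  have ht0 : 0 ≤ t x := by
    rcases (mem_closedBall_zero_iff.1 hx).lt_or_eq with h | h
    · exact (hpos x (mem_ball_zero_iff.2 h)).le
    · exact (hbd x (mem_sphere_zero_iff_norm.2 h)).ge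
  have hE1 : Real.exp (-L * t x) ≤ 1 := by
    rw [Real.exp_le_one_iff]
    nlinarith
  have hcase : 0 < 1 - Real.exp (-L * t x) ∨ (Real.exp (-L * t x) = 1 ∧ 0 < pF f t x) := by
    rcases (mem_closedBall_zero_iff.1 hx).lt_or_eq with h | h
    · left
      have h5 := hpos x (mem_ball_zero_iff.2 h)
      have h6 : Real.exp (-L * t x) < 1 := by
        rw [Real.exp_lt_one_iff]
        nlinarith
      linarith
    · right
      have h5 := mem_sphere_zero_iff_norm.2 h
      refine ⟨by rw [hbd x h5]; simp, pF_pos (him x hx) (hneat x h5)⟩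
  have hEpos := Real.exp_pos (-L * t x)
  have hKpos := Real.exp_pos (C * (1 - Real.exp (-L * t x)))
  generalize Real.exp (C * (1 - Real.exp (-L * t x))) = K at hKpos ⊢
  generalize Real.exp (-L * t x) = E at hEA hE1 hcase hEpos ⊢
  generalize hF f x = h at h3 ⊢
  generalize lF f t x = l at h1 ⊢
  generalize pF f t x = p at h1 h4 hcase ⊢
  have key : ((1 - E) * K) ^ 2 * h + (1 - E) * K * (L * E * K * (1 + C * (1 - E))) * l +
      ((1 - E) * K * (K * (-L * (L * E) * (1 + C * (1 - E)) + (L * E) ^ 2 * C *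
        (2 + C * (1 - E)))) - (L * E * K * (1 + C * (1 - E))) ^ 2) * p =
      K ^ 2 * ((1 - E) ^ 2 * h + (1 - E) * (L * E) * (1 + C * (1 - E)) * (l - L * p) -
        (L * E) ^ 2 * p) := by ring
  rw [key]
  refine mul_neg_of_pos_of_neg (by positivity) ?_
  have hLE : 0 < L * E := mul_pos hL hEpos
  have hu : 0 ≤ 1 - E := by linarith
  have h5 : (1 - E) * (L * E) * (1 + C * (1 - E)) * (l - L * p) ≤
      (1 - E) * (L * E) * (1 + C * (1 - E)) * (-m) :=
    mul_le_mul_of_nonneg_left h1 (by positivity)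
  have h6 : (1 - E) ^ 2 * h ≤ (1 - E) ^ 2 * (C * (L * E) * m) := by
    refine mul_le_mul_of_nonneg_left (h3.trans ?_) (by positivity)
    rw [← hCm]
    have : L * Real.exp (-L * A) ≤ L * E := mul_le_mul_of_nonneg_left hEA hL.le
    gcongr
  have h7 : (1 - E) ^ 2 * h + (1 - E) * (L * E) * (1 + C * (1 - E)) * (l - L * p) -
      (L * E) ^ 2 * p ≤ -((1 - E) * (L * E) * m) - (L * E) ^ 2 * p := by
    nlinarith
  refine h7.trans_lt ?_
  rcases hcase with h8 | ⟨h8, h9⟩
  · have h10 : 0 < (1 - E) * (L * E) * m := by positivity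
    have h11 : 0 ≤ (L * E) ^ 2 * p := by positivity
    linarith
  · have h11 : 0 < (L * E) ^ 2 * p := by positivity
    have h10 : 0 ≤ (1 - E) * (L * E) * m := by positivity
    linarith


theorem exists_small_lt_on {f : Plane → Space} {T : Plane → ℝ} (hf : ContDiff ℝ ∞ f)
    (hT : ContDiff ℝ ∞ T)
    (him : ∀ x ∈ closedBall (0 : Plane) 1, Function.Injective (fderiv ℝ f x)) {c : ℝ}
    {K : Set Plane} (hK : IsCompact K) (hKD : K ⊆ closedBall 0 1)
    (h0 : ∀ x ∈ K, bF f T 0 x < c) :
    ∃ ε₀ > 0, ∀ e, 0 < e → e ≤ ε₀ → ∀ x ∈ K, bF f T e x < c := by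
  have h1 : ∀ᶠ e in 𝓝 (0 : ℝ), ∀ x ∈ K, bF f T e x < c := by
    refine hK.eventually_forall_of_forall_eventually ?_
    intro x hx
    exact (continuousAt_bF hf hT 0 (him x (hKD hx))).eventually_lt continuousAt_const (h0 x hx)
  obtain ⟨δ, hδ, hδ'⟩ := Metric.eventually_nhds_iff.1 h1
  refine ⟨δ / 2, half_pos hδ, fun e he he' x hx => hδ' ?_ x hx⟩
  rw [Real.dist_eq, sub_zero, abs_of_pos he]
  linarith

end Pool.Agent.Lib_MP_752436_hk
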