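import Pool.Agent.Lib_MP_752436_hg.Forward
import Pool.Agent.Lib_MP_752436_hg.Backward
import Pool.Agent.Lib_MP_752436_hi.Main
import Pool.Agent.Lib_MP_752436_hk.Rel
import Pool.Agent.Lib_MP_752436_hk.Path
import Pool.Agent.Lib_MP_752436_hk.InductB
import Pool.Agent.Lib_MP_752436_hk.SuperB

/-!
The hyperbolic curvature gap on the level of discs.
-/

open Metric Set Filter
open scoped ContDiff Topology

namespace Pool.Agent.Lib_MP_752436_hk

open Pool.Agent.Lib_MP_752436_gt Pool.Agent.Lib_MP_752436_tp Pool.Agent.Lib_MP_752436_rb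
  Pool.Agent.Lib_MP_752436_nb Pool.Agent.Lib_MP_752436_hg Pool.Agent.Lib_MP_752436_hi

/-- Every Morse slice disc is isotopic to one with the same height and immersed shadow. -/
theorem exists_immersed_isotopic {F : Plane → EuclideanSpace ℝ (Fin 4)} (hF : MorseDisc F) :
    ∃ g : Plane → Space, SDisc g (height F) ∧ DiscIsotopic F (lift4 g (height F)) ∧
      ∀ x ∈ closedBall (0 : Plane) 1, Function.Injective (fderiv ℝ g x) := by
  obtain ⟨ν, hν, hν1⟩ := exists_normal hF.slice (finite_crit_of_morse hF)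
  obtain ⟨V, hV, hVc, hVi⟩ := exists_field hF.slice hν hν1
  obtain ⟨g, hg, hg0, hgs, hgi⟩ := exists_straight_path (sdisc_of_sliceDisc hF.slice) hV hVc hVi
  refine ⟨g 1, (hgs 1 ⟨zero_le_one, le_rfl⟩).1, ?_, hgi⟩
  refine ⟨fun s => lift4 (g s) (height F), ?_, ?_, rfl, fun s hs =>
    ⟨isSliceDisc_of_sdisc (hgs s hs).1, fun x hx => ?_⟩⟩
  · have hc := contDiff_euclidean.1 hg
    have hh : ContDiff ℝ ∞ (fun p : ℝ × Plane => height F p.2) :=
      (sdisc_of_sliceDisc hF.slice).smt.comp contDiff_snd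
    refine contDiff_euclidean.2 (fun i => ?_)
    fin_cases i
    · exact hc 0
    · exact hc 1
    · exact hc 2
    · exact hh
  · show lift4 (g 0) (height F) = F
    rw [hg0, lift4_shadow_height]
  · ext i
    have h1 := (hgs s hs).2 x hx
    fin_cases i
    · exact congrArg (fun z : Space => z 0) h1
    · exact congrArg (fun z : Space => z 1) h1
    · exact congrArg (fun z : Space => z 2) h1
    · rfl

/-- Every slice disc is isotopic to a Morse slice disc. -/
theorem exists_morse_isotopic {F : Plane → EuclideanSpace ℝ (Fin 4)} (hF : IsSliceDisc F) :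
    ∃ G, MorseDisc G ∧ DiscIsotopic F G := by
  obtain ⟨G, hG, -, -, hGi, hGs⟩ := willmore_births hF
  exact ⟨G, hG, discIsotopic_of_line hGs hGi⟩

/-- A Morse slice disc is isotopic to slice discs of hyperbolic mean curvature less than `1 + ε`, and
less than `1` away from the births. -/
theorem exists_isotopic_local {F : Plane → EuclideanSpace ℝ (Fin 4)} (hF : MorseDisc F) {ε : ℝ}
    (hε : 0 < ε) : ∃ G, DiscIsotopic F G ∧
      (∀ x ∈ closedBall (0 : Plane) 1, hypCurvature G x < 1 + ε) ∧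
      ∀ x ∈ closedBall (0 : Plane) 1, (∀ p ∈ births F, ε ≤ dist x p) → hypCurvature G x < 1 := by
  have hfin := finite_crit_of_morse hF
  obtain ⟨g, hg, hFg, him⟩ := exists_immersed_isotopic hF
  obtain ⟨t, ht, hneat, hcrit, hord⟩ := exists_stretched_births hF hfin hg him
  set K : Set Plane := closedBall 0 1 \ ⋃ p ∈ births F, ball p ε with hKdef
  have hKc : IsCompact K :=
    (isCompact_closedBall _ _).diff (isOpen_biUnion fun p _ => isOpen_ball)
  have hKD : K ⊆ closedBall 0 1 := sdiff_subset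
  have hmemK : ∀ x ∈ closedBall (0 : Plane) 1, (∀ p ∈ births F, ε ≤ dist x p) → x ∈ K := by
    intro x hx hp
    refine ⟨hx, fun h => ?_⟩
    obtain ⟨p, hpb, hxp⟩ := mem_iUnion₂.1 h
    exact absurd (mem_ball.1 hxp) (not_lt.2 (hp p hpb))
  obtain ⟨k, hk, hk0, hkm, hneg⟩ := exists_height_on ht.smf ht.smt him ht.bd ht.pos hneat hKc hKD
    (fun x hx h0 => by
      rcases hcrit x (hKD hx) h0 with h1 | h1
      · exact h1
      · exact absurd (mem_iUnion₂.2 ⟨x, h1, mem_ball_self hε⟩) hx.2)
  have hT : SDisc g (fun x => k (t x)) := sdisc_comp ht him hk hk0 hkm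
  obtain ⟨c, hc, hbound⟩ := exists_bound hT.smf hT.smt him
  obtain ⟨ε₀, hε₀, hsmall⟩ := exists_small_lt hT.smf hT.smt him hbound
  obtain ⟨ε₁, hε₁, hsmall₁⟩ := exists_small_lt_on hT.smf hT.smt him hKc hKD hneg
  obtain ⟨e, he, he0, he1, hec⟩ : ∃ e : ℝ, 0 < e ∧ e ≤ ε₀ ∧ e ≤ ε₁ ∧ e ^ 2 * c ≤ ε := by
    refine ⟨min (min ε₀ ε₁) (min 1 (ε / c)), by positivity, (min_le_left _ _).trans
      (min_le_left _ _), (min_le_left _ _).trans (min_le_right _ _), ?_⟩
    set e := min (min ε₀ ε₁) (min 1 (ε / c))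
    have h0 : 0 < e := by positivity
    have h1 : e ≤ 1 := (min_le_right _ _).trans (min_le_left _ _)
    have h2 : e ≤ ε / c := (min_le_right _ _).trans (min_le_right _ _)
    have h3 : e * c ≤ ε := (le_div_iff₀ hc).1 h2
    nlinarith [mul_nonneg h0.le hc.le]
  have hnn : ∀ x ∈ closedBall (0 : Plane) 1, 0 ≤ t x := by
    intro x hx
    rcases ball_or_sphere hx with h1 | h1
    · exact (ht.pos x h1).le
    · exact (ht.bd x h1).ge
  have hsq : ∀ x ∈ closedBall (0 : Plane) 1,
      hypCurvature (lift4 g (fun y => e * k (t y))) x ^ 2 =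
        1 + e ^ 2 * bF g (fun x => k (t x)) e x := fun x hx =>
    hypCurvature_sq hT.smf hT.smt e (x := x) (gramJ_pos (him x hx) _ _ _)
  refine ⟨lift4 g (fun y => e * k (t y)), hFg.trans (discIsotopic_of_height hg
    (sdisc_smul hT him he) him fun x hx y hy hxy h => ?_), fun x hx => ?_, fun x hx hp => ?_⟩
  · exact mul_lt_mul_of_pos_left (hkm (hnn x hx) (hnn y hy) (hord x hx y hy hxy h)) he
  · have h2 := hsmall e he he0 x hx
    have h3 : hypCurvature (lift4 g (fun y => e * k (t y))) x ^ 2 < (1 + ε) ^ 2 := by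
      rw [hsq x hx]
      have h4 : e ^ 2 * bF g (fun x => k (t x)) e x < e ^ 2 * c :=
        mul_lt_mul_of_pos_left h2 (by positivity)
      nlinarith
    exact lt_of_pow_lt_pow_left₀ 2 (by positivity) h3
  · have h2 := hsmall₁ e he he1 x (hmemK x hx hp)
    have h3 : hypCurvature (lift4 g (fun y => e * k (t y))) x ^ 2 < 1 ^ 2 := by
      rw [hsq x hx]
      have h4 : e ^ 2 * bF g (fun x => k (t x)) e x < 0 :=
        mul_neg_of_pos_of_neg (by positivity) h2
      linarith
    exact lt_of_pow_lt_pow_left₀ 2 zero_le_one h3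

/-- A Morse slice disc without births is isotopic to one of hyperbolic mean curvature less than
one. -/
theorem exists_isotopic_lt_one {F : Plane → EuclideanSpace ℝ (Fin 4)} (hF : MorseDisc F)
    (hb : births F = ∅) : ∃ G, DiscIsotopic F G ∧
      ∀ x ∈ closedBall (0 : Plane) 1, hypCurvature G x < 1 := by
  obtain ⟨G, hG, -, h⟩ := exists_isotopic_local hF one_pos
  exact ⟨G, hG, fun x hx => h x hx (by rw [hb]; simp)⟩

/-- Every slice disc is isotopic to slice discs of hyperbolic mean curvature less than `1 + ε`. -/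
theorem exists_isotopic_lt {F : Plane → EuclideanSpace ℝ (Fin 4)} (hF : IsSliceDisc F) {ε : ℝ}
    (hε : 0 < ε) : ∃ G, DiscIsotopic F G ∧
      ∀ x ∈ closedBall (0 : Plane) 1, hypCurvature G x < 1 + ε := by
  obtain ⟨G, hG, hFG⟩ := exists_morse_isotopic hF
  obtain ⟨G', hG', h, -⟩ := exists_isotopic_local hG hε
  exact ⟨G', hFG.trans hG', h⟩

/-- A slice disc of hyperbolic mean curvature less than one is isotopic to a Morse slice disc without
births. -/
theorem exists_isotopic_noBirths {F : Plane → EuclideanSpace ℝ (Fin 4)} (hF : IsSliceDisc F)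
    (h : ∀ x ∈ closedBall (0 : Plane) 1, hypCurvature F x < 1) :
    ∃ G, DiscIsotopic F G ∧ MorseDisc G ∧ births G = ∅ := by
  set v : EuclideanSpace ℝ (Fin 4) := EuclideanSpace.single 3 1 with hv
  have hbad : ∀ x ∈ closedBall (0 : EuclideanSpace ℝ (Fin 2)) 1, v ∉ badSet F {x} := by
    rintro x hx ⟨y, hy, h1, h2⟩
    rw [mem_singleton_iff.1 hy] at h1 h2
    obtain ⟨u, hu⟩ := exists_neg_of_hyp hF h x hx h1
    exact absurd (h2 u) (not_le.2 hu)
  obtain ⟨G, hG, hn, hGF, hGs⟩ := births_of_direction hF (v := v) (by simp [hv]) (n := 0)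
    (by
      have h0 : {x | x ∈ closedBall (0 : EuclideanSpace ℝ (Fin 2)) 1 ∧ v ∈ badSet F {x}} = ∅ := by
        ext x
        simp only [Set.mem_ofPred_eq, mem_empty_iff_false, iff_false, not_and]
        exact hbad x
      rw [h0]
      simp)
    (fun x hx h => absurd h (hbad x hx))
  refine ⟨G, discIsotopic_of_line hGs hGF, hG, ?_⟩
  rw [← Set.encard_eq_zero]
  exact le_antisymm (by simpa using hn) bot_le

end Pool.Agent.Lib_MP_752436_hk
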