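import Pool.Agent.Lib_MP_752436_hg.Backward
import Pool.Agent.Lib_MP_752436_mv.Crit

/-!
At the births of a Morse slice disc the hyperbolic mean curvature is greater than one.
-/

open Metric Set Filter
open scoped ContDiff Topology

namespace Pool.Agent.Lib_MP_752436_hk

open Pool.Agent.Lib_MP_752436_gt Pool.Agent.Lib_MP_752436_tp Pool.Agent.Lib_MP_752436_rb
  Pool.Agent.Lib_MP_752436_nb Pool.Agent.Lib_MP_752436_hg Pool.Agent.Lib_MP_752436_mv

/-- The trace of a positive definite form. -/
private theorem trace_pos {F : Plane → EuclideanSpace ℝ (Fin 4)} (hF : ContDiff ℝ ∞ F)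
    {x : Plane} (hg : 0 < gdet F x) {v : EuclideanSpace ℝ (Fin 4)}
    (h : ∀ u, u ≠ 0 → 0 < (inner ℝ v (fderiv ℝ (fderiv ℝ F) x u u) : ℝ)) :
    0 < (inner ℝ v (hvec F x) : ℝ) := by
  have h11 : 0 ≤ gm F 1 1 x := real_inner_self_nonneg
  have hgd : gdet F x = gm F 0 0 x * gm F 1 1 x - gm F 0 1 x ^ 2 := rfl
  have hpos : 0 < gm F 1 1 x := by
    rcases h11.eq_or_lt with h0 | h0
    · rw [hgd, ← h0] at hg
      nlinarith [sq_nonneg (gm F 0 1 x)]
    · exact h0
  have hq1 : 0 < (inner ℝ v (d2 F 1 1 x) : ℝ) := h _ (by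
    intro h0
    have := congrArg (fun z : Plane => z 1) h0
    simp at this)
  have hs : d2 F 1 0 x = d2 F 0 1 x := d2_symm hF 1 0 x
  have hQ := (h (gm F 1 1 x • EuclideanSpace.single 0 1 - gm F 0 1 x • EuclideanSpace.single 1 1)
    (by
      intro h0
      have := congrArg (fun z : Plane => z 0) h0
      simp at this
      exact hpos.ne' this)).le
  have hexp : fderiv ℝ (fderiv ℝ F) x
      (gm F 1 1 x • EuclideanSpace.single 0 1 - gm F 0 1 x • EuclideanSpace.single 1 1)
      (gm F 1 1 x • EuclideanSpace.single 0 1 - gm F 0 1 x • EuclideanSpace.single 1 1) =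
      (gm F 1 1 x ^ 2) • d2 F 0 0 x - (2 * (gm F 1 1 x * gm F 0 1 x)) • d2 F 0 1 x
        + (gm F 0 1 x ^ 2) • d2 F 1 1 x := by
    have e01 : fderiv ℝ (fderiv ℝ F) x (EuclideanSpace.single 1 1) (EuclideanSpace.single 0 1) =
        d2 F 0 1 x := hs
    have e00 : fderiv ℝ (fderiv ℝ F) x (EuclideanSpace.single 0 1) (EuclideanSpace.single 0 1) =
        d2 F 0 0 x := rfl
    have e10 : fderiv ℝ (fderiv ℝ F) x (EuclideanSpace.single 0 1) (EuclideanSpace.single 1 1) =
        d2 F 0 1 x := rfl
    have e11 : fderiv ℝ (fderiv ℝ F) x (EuclideanSpace.single 1 1) (EuclideanSpace.single 1 1) =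
        d2 F 1 1 x := rfl
    simp only [map_sub, map_smul, _root_.sub_apply, _root_.smul_apply, e01, e00, e10, e11]
    module
  rw [hexp, inner_add_right, inner_sub_right, real_inner_smul_right, real_inner_smul_right,
    real_inner_smul_right] at hQ
  unfold hvec
  rw [real_inner_smul_right, inner_add_right, inner_sub_right, real_inner_smul_right,
    real_inner_smul_right, real_inner_smul_right]
  refine mul_pos (by positivity) ?_
  have key : 0 < gm F 1 1 x * (gm F 1 1 x * inner ℝ v (d2 F 0 0 x) -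
      2 * gm F 0 1 x * inner ℝ v (d2 F 0 1 x) + gm F 0 0 x * inner ℝ v (d2 F 1 1 x)) := by
    have h1 := mul_pos hg hq1
    rw [hgd] at h1
    nlinarith
  exact (mul_pos_iff_of_pos_left hpos).1 key

/-- At the births of a Morse slice disc the hyperbolic mean curvature is greater than one. -/
theorem one_lt_hyp_of_birth {F : Plane → EuclideanSpace ℝ (Fin 4)} (hF : MorseDisc F) {x : Plane}
    (hx : x ∈ births F) : 1 < hypCurvature F x := by
  obtain ⟨h0, hpd⟩ := births_posDef hF hx
  have hxD : x ∈ closedBall (0 : Plane) 1 := ball_subset_closedBall hx.1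
  have hg := gdet_pos (hF.slice.immersion x hxD)
  set e3 : EuclideanSpace ℝ (Fin 4) := EuclideanSpace.single 3 1 with he3
  have he3in : ∀ w : EuclideanSpace ℝ (Fin 4), (inner ℝ e3 w : ℝ) = w 3 := by
    intro w
    simp [he3, EuclideanSpace.inner_single_left]
  have hn : ∀ u, (inner ℝ e3 (fderiv ℝ F x u) : ℝ) = 0 := by
    intro u
    rw [he3in, ← fderiv_coord hF.slice.smooth 3 x u, h0]
    rfl
  have hpd' : ∀ u, u ≠ 0 → 0 < (inner ℝ e3 (fderiv ℝ (fderiv ℝ F) x u u) : ℝ) := by
    intro u hu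
    have h1 := hpd u hu
    have h2 : fderiv ℝ (fderiv ℝ (fun y => F y 3)) x u u = (fderiv ℝ (fderiv ℝ F) x u u) 3 := by
      have hFs : ContDiff ℝ ∞ (fun y => F y 3) := contDiff_coord hF.slice.smooth 3
      rw [← fderiv_fderiv_apply hFs x u u, ← fderiv_fderiv_apply hF.slice.smooth x u u]
      have h3 : (fun y => fderiv ℝ (fun z => F z 3) y u) = fun y => (fderiv ℝ F y u) 3 := by
        funext y
        exact fderiv_coord hF.slice.smooth 3 y u
      rw [h3]
      have h4 : ContDiff ℝ ∞ (fun y => fderiv ℝ F y u) :=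
        (hF.slice.smooth.fderiv_right (m := ∞) (by simp)).clm_apply contDiff_const
      exact fderiv_coord h4 3 x u
    rw [he3in, ← h2]
    exact h1
  set S := Submodule.span ℝ {d1 F 0 x, d1 F 1 x} with hS
  have hmem : e3 ∈ Sᗮ := by
    rw [Submodule.mem_orthogonal]
    intro u hu
    rw [hS, Submodule.mem_span_pair] at hu
    obtain ⟨a, b, rfl⟩ := hu
    have h0 : (inner ℝ e3 (d1 F 0 x) : ℝ) = 0 := hn _
    have h1 : (inner ℝ e3 (d1 F 1 x) : ℝ) = 0 := hn _
    rw [inner_add_left, real_inner_smul_left, real_inner_smul_left, real_inner_comm e3,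
      real_inner_comm e3, h0, h1]
    ring
  have hproj : Sᗮ.starProjection e3 = e3 := Submodule.starProjection_eq_self_iff.2 hmem
  have hnorm : ‖e3‖ = 1 := by simp [he3]
  have ht : 0 < F x 3 := hF.slice.interior x hx.1
  have h1 : 1 < (inner ℝ (F x 3 • meanCurvature F x + Sᗮ.starProjection e3) e3 : ℝ) := by
    have h2 : (inner ℝ (meanCurv F x) e3 : ℝ) = inner ℝ e3 (hvec F x) := by
      have h3 : meanCurv F x = Sᗮ.starProjection (hvec F x) := rfl
      rw [h3, Submodule.inner_starProjection_left_eq_right, hproj, real_inner_comm]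
    rw [hproj, inner_add_left, real_inner_smul_left, meanCurvature_eq hF.slice.smooth, h2,
      real_inner_self_eq_norm_sq, hnorm]
    have h4 := mul_pos ht (trace_pos hF.slice.smooth hg hpd')
    linarith
  have h6 : (inner ℝ (F x 3 • meanCurvature F x + Sᗮ.starProjection e3) e3 : ℝ) ≤
      hypCurvature F x := by
    refine (real_inner_le_norm _ _).trans ?_
    rw [hnorm, mul_one]
    exact le_rfl
  linarith

end Pool.Agent.Lib_MP_752436_hk
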